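import Pool.Agent.KIL.Stmts

/-!
# Row KNB of tank KIL: bounds at a good point
-/

set_option autoImplicit false

open MeasureTheory ProbabilityTheory Function Filter

open scoped ENNReal BigOperators Topology NNReal Matrix

noncomputable section

namespace Pool.Agent.KIL.H13

/-- the quadratic form of a Gram matrix -/
theorem gram {ι X : Type} [Fintype ι] [Fintype X] (κ : X → ℝ) (b : ι → X → ℂ) (w : ι → ι → ℝ)
    (hw : ∀ c c', ∑ v, (κ v : ℂ) * (b c v * (starRingEnd ℂ) (b c' v)) = (w c c' : ℂ))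
    (u : ι → ℂ) :
    ((∑ v, κ v * ‖∑ c, b c v * u c‖ ^ 2 : ℝ) : ℂ) =
      ∑ c, ∑ c', u c * (starRingEnd ℂ) (u c') * (w c c' : ℂ) := by
  have h1 : ∀ v, ((κ v * ‖∑ c, b c v * u c‖ ^ 2 : ℝ) : ℂ) =
      ∑ c, ∑ c', u c * (starRingEnd ℂ) (u c') * ((κ v : ℂ) * (b c v * (starRingEnd ℂ) (b c' v))) := by
    intro v
    push_cast
    rw [← Complex.mul_conj', map_sum, Finset.sum_mul_sum, Finset.mul_sum]
    apply Finset.sum_congr rfl
    intro c _
    rw [Finset.mul_sum]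
    apply Finset.sum_congr rfl
    intro c' _
    rw [map_mul]
    ring
  rw [Complex.ofReal_sum, Finset.sum_congr rfl fun v _ => h1 v, Finset.sum_comm]
  apply Finset.sum_congr rfl
  intro c _
  rw [Finset.sum_comm]
  apply Finset.sum_congr rfl
  intro c' _
  rw [← hw, Finset.mul_sum]

theorem gram_le {ι X : Type} [Fintype ι] [Fintype X] (κ : X → ℝ) (b : ι → X → ℂ) (w : ι → ι → ℝ)
    (hw : ∀ c c', ∑ v, (κ v : ℂ) * (b c v * (starRingEnd ℂ) (b c' v)) = (w c c' : ℂ))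
    (u : ι → ℂ) (Q : ℝ) (hQ : ∑ c, ∑ c', w c c' ^ 2 ≤ Q) :
    ∑ v, κ v * ‖∑ c, b c v * u c‖ ^ 2 ≤ Real.sqrt Q * ∑ c, ‖u c‖ ^ 2 := by
  have h0 := gram κ b w hw u
  have h1 : ∑ v, κ v * ‖∑ c, b c v * u c‖ ^ 2 ≤ ∑ c, ∑ c', ‖u c‖ * ‖u c'‖ * |w c c'| := by
    calc ∑ v, κ v * ‖∑ c, b c v * u c‖ ^ 2 ≤ |∑ v, κ v * ‖∑ c, b c v * u c‖ ^ 2| := le_abs_self _
      _ = ‖((∑ v, κ v * ‖∑ c, b c v * u c‖ ^ 2 : ℝ) : ℂ)‖ := by
          rw [Complex.norm_real, Real.norm_eq_abs]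
      _ ≤ _ := by
          rw [h0]
          refine (norm_sum_le _ _).trans (Finset.sum_le_sum fun c _ => ?_)
          refine (norm_sum_le _ _).trans (Finset.sum_le_sum fun c' _ => ?_)
          rw [norm_mul, norm_mul, Complex.norm_conj, Complex.norm_real, Real.norm_eq_abs]
  refine h1.trans ?_
  have h2 : ∑ c, ∑ c', ‖u c‖ * ‖u c'‖ * |w c c'| =
      ∑ p : ι × ι, (‖u p.1‖ * ‖u p.2‖) * |w p.1 p.2| := by
    rw [Fintype.sum_prod_type]
  have h3 := Finset.sum_mul_sq_le_sq_mul_sq Finset.univ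
    (fun p : ι × ι => ‖u p.1‖ * ‖u p.2‖) (fun p => |w p.1 p.2|)
  have h4 : ∑ p : ι × ι, (‖u p.1‖ * ‖u p.2‖) ^ 2 = (∑ c, ‖u c‖ ^ 2) ^ 2 := by
    rw [Fintype.sum_prod_type, sq (∑ c, ‖u c‖ ^ 2), Finset.sum_mul_sum]
    apply Finset.sum_congr rfl
    intro c _
    apply Finset.sum_congr rfl
    intro c' _
    ring
  have h5 : ∑ p : ι × ι, |w p.1 p.2| ^ 2 = ∑ c, ∑ c', w c c' ^ 2 := by
    rw [Fintype.sum_prod_type]
    simp only [sq_abs]
  rw [h2]
  have hU : 0 ≤ ∑ c, ‖u c‖ ^ 2 := Finset.sum_nonneg fun c _ => by positivity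
  have hQ0 : 0 ≤ ∑ c, ∑ c', w c c' ^ 2 :=
    Finset.sum_nonneg fun c _ => Finset.sum_nonneg fun c' _ => by positivity
  apply le_of_sq_le_sq _ (mul_nonneg (Real.sqrt_nonneg _) hU)
  rw [mul_pow, Real.sq_sqrt (hQ0.trans hQ)]
  rw [h4, h5] at h3
  refine h3.trans ?_
  rw [mul_comm]
  exact mul_le_mul_of_nonneg_right hQ (by positivity)

theorem knb : KnbStmt := by
  intro ι X _ _ _ _ e G κ g μ Rn o κs g₀ δ Lc he hG hγ
  have hs := hG.hs
  have hκ := hG.hκ.1
  have hg0 := hG.hg.1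
  set γ := gam κ G o with hγd
  have hgc : ∀ c, 0 < g (e c) := fun c => lt_of_lt_of_le hg0 (hG.hg.2 c)
  have hA0 : ∀ c, 0 ≤ AA e κ g G o c := by
    intro c
    unfold AA
    exact div_nonneg (mul_nonneg (hgc c).le (by positivity)) hγ.le
  have hδ : ∀ _ : ι, 0 ≤ δ := fun c => (norm_nonneg _).trans (hG.hμ c).1
  have hκs : ∀ _ : ι, 0 ≤ κs := fun c => (hκ _).trans (hG.hκ.2 _ (hG.hR.1 c))
  have hward : ∀ c, ∑ v, κ v * ‖G v (e c)‖ ^ 2 = (G (e c) (e c)).im := by
    intro c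
    have h := hG.hw (e c) (e c)
    have h2 : ((∑ v, κ v * ‖G v (e c)‖ ^ 2 : ℝ) : ℂ) = ((G (e c) (e c)).im : ℂ) := by
      rw [← h]
      push_cast
      apply Finset.sum_congr rfl
      intro v _
      rw [Complex.mul_conj', hs v (e c)]
    exact_mod_cast h2
  have hn : ∀ c, ‖G (e c) o‖ ^ 2 / γ ≤ AA e κ g G o c / g₀ := by
    intro c
    unfold AA
    rw [← hγd, le_div_iff₀ hg0, div_mul_eq_mul_div]
    apply div_le_div_of_nonneg_right _ hγ.le
    rw [mul_comm]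
    exact mul_le_mul_of_nonneg_right (hG.hg.2 c) (by positivity)
  have hee : ∀ v c, ee e κ G o v c = κ v * ‖G v (e c)‖ ^ 2 * (‖G (e c) o‖ ^ 2 / γ) := by
    intro v c
    unfold ee
    rw [norm_mul, mul_pow, ← hγd]
    ring
  have hnn : ∀ v, 0 ≤ nn κ G o v := fun v => mul_nonneg (hκ v) (by positivity)
  refine ⟨?_, ?_, hA0, ?_, ?_, ?_, ?_⟩
  · intro v
    unfold aa
    exact div_nonneg (hnn v) hγ.le
  · unfold aa
    rw [← Finset.sum_div]
    exact div_self hγ.ne'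
  · intro v c
    have h0 : 0 ≤ ee e κ G o v c := by
      unfold ee
      exact div_nonneg (mul_nonneg (hκ v) (by positivity)) hγ.le
    refine ⟨h0, ?_⟩
    unfold xx aa nn ee
    rw [← hγd]
    have h1 := Complex.abs_re_le_norm ((starRingEnd ℂ) (G v o) * (G v (e c) * G (e c) o))
    rw [norm_mul, Complex.norm_conj] at h1
    have h2 : (((starRingEnd ℂ) (G v o) * (G v (e c) * G (e c) o)).re) ^ 2 ≤
        (‖G v o‖ * ‖G v (e c) * G (e c) o‖) ^ 2 := by
      rw [← sq_abs]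
      exact pow_le_pow_left₀ (abs_nonneg _) h1 2
    have e1 : 4 * (κ v * ‖G v o‖ ^ 2 / γ * (κ v * ‖G v (e c) * G (e c) o‖ ^ 2 / γ)) =
        4 * κ v ^ 2 * (‖G v o‖ * ‖G v (e c) * G (e c) o‖) ^ 2 / γ ^ 2 := by
      field_simp
    rw [e1, div_pow]
    apply div_le_div_of_nonneg_right _ (by positivity)
    have e2 : (2 * κ v * ((starRingEnd ℂ) (G v o) * (G v (e c) * G (e c) o)).re) ^ 2 =
        4 * κ v ^ 2 * (((starRingEnd ℂ) (G v o) * (G v (e c) * G (e c) o)).re) ^ 2 := by ring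
    rw [e2]
    exact mul_le_mul_of_nonneg_left h2 (by positivity)
  · intro c
    have h1 : ∑ v ∈ Finset.univ.erase o, ee e κ G o v c =
        ((G (e c) (e c)).im - κ o * ‖G (e c) o‖ ^ 2) * (‖G (e c) o‖ ^ 2 / γ) := by
      rw [Finset.sum_congr rfl fun v _ => hee v c, ← Finset.sum_mul]
      congr 1
      rw [← hward c, ← Finset.add_sum_erase Finset.univ _ (Finset.mem_univ o), hs o (e c)]
      ring
    have h2 : AA e κ g G o c = g (e c) * (‖G (e c) o‖ ^ 2 / γ) := by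
      unfold AA
      rw [← hγd]
      ring
    have h3 : 0 ≤ ‖G (e c) o‖ ^ 2 / γ := by positivity
    have h4 := abs_le.1 (hG.hμ c).2
    have h5 := hG.ho c
    have h6 : 0 ≤ κ o * ‖G (e c) o‖ ^ 2 := mul_nonneg (hκ o) (by positivity)
    rw [h1]
    nth_rewrite 1 [h2]
    rw [← sub_mul, abs_mul, abs_of_nonneg h3]
    have h7 : |(G (e c) (e c)).im - κ o * ‖G (e c) o‖ ^ 2 - g (e c)| ≤ 2 * δ := by
      rw [abs_le]
      constructor <;> linarith
    have h8 : 2 * δ / g₀ * AA e κ g G o c = 2 * δ * (AA e κ g G o c / g₀) := by ring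
    rw [h8]
    exact mul_le_mul h7 (hn c) h3 (by linarith [hδ c])
  · intro H N hH hN c
    rw [Finset.sum_congr rfl fun v _ => hee v c, ← Finset.sum_mul]
    have h1 : ∑ v ∈ H, κ v * ‖G v (e c)‖ ^ 2 ≤ κs * Real.sqrt (N * Lc) := by
      have h2 : ∑ v ∈ H, κ v * ‖G v (e c)‖ ^ 2 ≤ κs * ∑ v ∈ H, 1 * ‖G v (e c)‖ ^ 2 := by
        rw [Finset.mul_sum]
        apply Finset.sum_le_sum
        intro v hv
        rw [one_mul]
        exact mul_le_mul_of_nonneg_right (hG.hκ.2 v (hH hv)) (by positivity)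
      refine h2.trans (mul_le_mul_of_nonneg_left ?_ (hκs c))
      apply Real.le_sqrt_of_sq_le
      have h3 := Finset.sum_mul_sq_le_sq_mul_sq H (fun _ => (1 : ℝ)) (fun v => ‖G v (e c)‖ ^ 2)
      refine h3.trans ?_
      have h4 : ∑ v ∈ H, (‖G v (e c)‖ ^ 2) ^ 2 ≤ Lc := by
        refine le_trans ?_ (hG.hL c)
        refine (Finset.sum_le_sum_of_subset_of_nonneg (Finset.subset_univ H)
          fun v _ _ => by positivity).trans (le_of_eq ?_)
        apply Finset.sum_congr rfl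
        intro v _
        rw [hs v (e c)]
        ring
      have h5 : ∑ v ∈ H, (1 : ℝ) ^ 2 = H.card := by simp
      rw [h5]
      apply mul_le_mul hN h4 (Finset.sum_nonneg fun v _ => by positivity)
      exact (Nat.cast_nonneg _).trans hN
    have e1 : κs * Real.sqrt (N * Lc) / g₀ * AA e κ g G o c =
        κs * Real.sqrt (N * Lc) * (AA e κ g G o c / g₀) := by ring
    rw [e1]
    exact mul_le_mul h1 (hn c) (by positivity) (mul_nonneg (hκs c) (Real.sqrt_nonneg _))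
  · set u : ι → ℂ := fun c => μ c * G (e c) o with hu
    set β : X → ℂ := fun v => ∑ c, G (e c) v * u c with hβ
    have hβ' : ∀ v, β v = ∑ c, G v (e c) * μ c * G (e c) o := by
      intro v
      simp only [hβ, hu]
      apply Finset.sum_congr rfl
      intro c _
      rw [hs (e c) v]
      ring
    have her : ∀ v, |er e κ G μ o v| ≤
        2 / γ * ((Real.sqrt (κ v) * ‖G v o‖) * (Real.sqrt (κ v) * ‖β v‖)) := by
      intro v
      unfold er
      rw [← hβ' v, ← hγd, abs_div, abs_of_pos hγ, abs_mul, abs_of_nonneg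
        (mul_nonneg (by norm_num) (hκ v) : (0 : ℝ) ≤ 2 * κ v)]
      have h1 := Complex.abs_re_le_norm ((starRingEnd ℂ) (G v o) * β v)
      rw [norm_mul, Complex.norm_conj] at h1
      have h2 : (Real.sqrt (κ v) * ‖G v o‖) * (Real.sqrt (κ v) * ‖β v‖) =
          κ v * (‖G v o‖ * ‖β v‖) := by
        have := Real.mul_self_sqrt (hκ v)
        calc (Real.sqrt (κ v) * ‖G v o‖) * (Real.sqrt (κ v) * ‖β v‖) =
            (Real.sqrt (κ v) * Real.sqrt (κ v)) * (‖G v o‖ * ‖β v‖) := by ring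
          _ = _ := by rw [this]
      rw [h2]
      have e1 : 2 / γ * (κ v * (‖G v o‖ * ‖β v‖)) = 2 * κ v * (‖G v o‖ * ‖β v‖) / γ := by ring
      rw [e1]
      apply div_le_div_of_nonneg_right _ hγ.le
      exact mul_le_mul_of_nonneg_left h1 (mul_nonneg (by norm_num) (hκ v))
    have hsum : ∑ v ∈ Finset.univ.erase o, |er e κ G μ o v| ≤ 2 / γ *
        ∑ v ∈ Finset.univ.erase o, (Real.sqrt (κ v) * ‖G v o‖) * (Real.sqrt (κ v) * ‖β v‖) := by
      rw [Finset.mul_sum]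
      exact Finset.sum_le_sum fun v _ => her v
    have h0 : 0 ≤ ∑ v ∈ Finset.univ.erase o, |er e κ G μ o v| :=
      Finset.sum_nonneg fun v _ => abs_nonneg _
    have hcs := Finset.sum_mul_sq_le_sq_mul_sq (Finset.univ.erase o)
      (fun v => Real.sqrt (κ v) * ‖G v o‖) (fun v => Real.sqrt (κ v) * ‖β v‖)
    have ha : ∑ v ∈ Finset.univ.erase o, (Real.sqrt (κ v) * ‖G v o‖) ^ 2 = γ := by
      rw [hγd]
      unfold gam nn
      apply Finset.sum_congr rfl
      intro v _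
      rw [mul_pow, Real.sq_sqrt (hκ v)]
    have hb : ∑ v ∈ Finset.univ.erase o, (Real.sqrt (κ v) * ‖β v‖) ^ 2 ≤
        ∑ v, κ v * ‖β v‖ ^ 2 := by
      have : ∀ v, (Real.sqrt (κ v) * ‖β v‖) ^ 2 = κ v * ‖β v‖ ^ 2 := by
        intro v
        rw [mul_pow, Real.sq_sqrt (hκ v)]
      rw [Finset.sum_congr rfl fun v _ => this v]
      exact Finset.sum_le_sum_of_subset_of_nonneg (Finset.erase_subset _ _)
        fun v _ _ => mul_nonneg (hκ v) (by positivity)
    have hQ : ∑ c, ∑ c', (G (e c) (e c')).im ^ 2 ≤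
        (Fintype.card ι : ℝ) * Real.sqrt ((Fintype.card ι : ℝ) * Lc) := by
      have h1 : ∀ c, ∑ c', (G (e c) (e c')).im ^ 2 ≤ Real.sqrt ((Fintype.card ι : ℝ) * Lc) := by
        intro c
        apply Real.le_sqrt_of_sq_le
        have h3 := Finset.sum_mul_sq_le_sq_mul_sq Finset.univ (fun _ : ι => (1 : ℝ))
          (fun c' => (G (e c) (e c')).im ^ 2)
        simp only [one_mul, one_pow] at h3
        refine h3.trans ?_
        have h5 : ∑ c' : ι, (1 : ℝ) = Fintype.card ι := by simp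
        rw [h5]
        apply mul_le_mul_of_nonneg_left _ (Nat.cast_nonneg _)
        refine le_trans ?_ (hG.hL c)
        have h6 : ∑ c', ‖G (e c) (e c')‖ ^ 4 = ∑ v ∈ Finset.univ.map ⟨e, he⟩, ‖G (e c) v‖ ^ 4 := by
          rw [Finset.sum_map]
          rfl
        have h7 : ∑ c', ((G (e c) (e c')).im ^ 2) ^ 2 ≤ ∑ c', ‖G (e c) (e c')‖ ^ 4 := by
          apply Finset.sum_le_sum
          intro c' _
          have h8 := Complex.abs_im_le_norm (G (e c) (e c'))
          have h9 : (G (e c) (e c')).im ^ 2 ≤ ‖G (e c) (e c')‖ ^ 2 := by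
            rw [← sq_abs]
            exact pow_le_pow_left₀ (abs_nonneg _) h8 2
          calc ((G (e c) (e c')).im ^ 2) ^ 2 ≤ (‖G (e c) (e c')‖ ^ 2) ^ 2 :=
              pow_le_pow_left₀ (by positivity) h9 2
            _ = ‖G (e c) (e c')‖ ^ 4 := by ring
        refine h7.trans ?_
        rw [h6]
        exact Finset.sum_le_sum_of_subset_of_nonneg (Finset.subset_univ _)
          fun v _ _ => by positivity
      refine (Finset.sum_le_sum fun c _ => h1 c).trans (le_of_eq ?_)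
      rw [Finset.sum_const, Finset.card_univ, nsmul_eq_mul]
    have hS := gram_le κ (fun c v => G (e c) v) (fun c c' => (G (e c) (e c')).im)
      (fun c c' => hG.hw (e c) (e c')) u _ hQ
    have hU : ∑ c, ‖u c‖ ^ 2 ≤ δ ^ 2 * (γ * (∑ c, AA e κ g G o c) / g₀) := by
      rw [Finset.mul_sum, Finset.sum_div, Finset.mul_sum]
      apply Finset.sum_le_sum
      intro c _
      simp only [hu]
      rw [norm_mul, mul_pow]
      apply mul_le_mul _ _ (by positivity) (by positivity)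
      · exact pow_le_pow_left₀ (norm_nonneg _) (hG.hμ c).1 2
      · have h1 := hn c
        rw [div_le_iff₀ hγ] at h1
        calc ‖G (e c) o‖ ^ 2 ≤ AA e κ g G o c / g₀ * γ := h1
          _ = γ * AA e κ g G o c / g₀ := by ring
    set Q := Real.sqrt ((Fintype.card ι : ℝ) * Real.sqrt ((Fintype.card ι : ℝ) * Lc)) with hQd
    have hQ0 : 0 ≤ Q := Real.sqrt_nonneg _
    calc (∑ v ∈ Finset.univ.erase o, |er e κ G μ o v|) ^ 2
        ≤ (2 / γ * ∑ v ∈ Finset.univ.erase o,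
            (Real.sqrt (κ v) * ‖G v o‖) * (Real.sqrt (κ v) * ‖β v‖)) ^ 2 :=
          pow_le_pow_left₀ h0 hsum 2
      _ = (2 / γ) ^ 2 * (∑ v ∈ Finset.univ.erase o,
            (Real.sqrt (κ v) * ‖G v o‖) * (Real.sqrt (κ v) * ‖β v‖)) ^ 2 := by rw [mul_pow]
      _ ≤ (2 / γ) ^ 2 * (γ * ∑ v, κ v * ‖β v‖ ^ 2) := by
          apply mul_le_mul_of_nonneg_left _ (by positivity)
          refine hcs.trans ?_
          rw [ha]
          exact mul_le_mul_of_nonneg_left hb hγ.le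
      _ ≤ (2 / γ) ^ 2 * (γ * (Q * (δ ^ 2 * (γ * (∑ c, AA e κ g G o c) / g₀)))) := by
          apply mul_le_mul_of_nonneg_left _ (by positivity)
          apply mul_le_mul_of_nonneg_left _ hγ.le
          exact hS.trans (mul_le_mul_of_nonneg_left hU hQ0)
      _ = 4 * Q * δ ^ 2 / g₀ * ∑ c, AA e κ g G o c := by
          field_simp
          ring

end Pool.Agent.KIL.H13
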