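import Pool.Agent.KIL.Stmts

/-!
# Row KTH of tank KIL: the cut off
-/

set_option autoImplicit false

open MeasureTheory ProbabilityTheory Function Filter

open scoped ENNReal BigOperators Topology NNReal Matrix

noncomputable section

namespace Pool.Agent.KIL.H13

open Real (smoothTransition)

theorem S_diff (x : ℝ) : HasDerivAt smoothTransition (deriv smoothTransition x) x :=
  ((Real.smoothTransition.contDiff (n := 1)).differentiable (by norm_num) x).hasDerivAt

theorem S1_contDiff : ContDiff ℝ 2 (deriv smoothTransition) := by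
  have h : ContDiff ℝ (2 + 1) smoothTransition := Real.smoothTransition.contDiff (n := 3)
  exact (contDiff_succ_iff_deriv.1 h).2.2

theorem S1_diff (x : ℝ) :
    HasDerivAt (deriv smoothTransition) (deriv (deriv smoothTransition) x) x :=
  (S1_contDiff.differentiable (by norm_num) x).hasDerivAt

theorem S2_cont : Continuous (deriv (deriv smoothTransition)) := by
  have h : ContDiff ℝ (1 + 1) (deriv smoothTransition) := S1_contDiff
  exact (contDiff_succ_iff_deriv.1 h).2.2.continuous

theorem S1_lt {x : ℝ} (hx : x < 0) : ∀ᶠ y in 𝓝 x, deriv smoothTransition y = 0 := by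
  filter_upwards [Iio_mem_nhds hx] with y hy
  have h : smoothTransition =ᶠ[𝓝 y] fun _ => 0 := by
    filter_upwards [Iio_mem_nhds hy] with z hz
    exact Real.smoothTransition.zero_of_nonpos (le_of_lt hz)
  rw [h.deriv_eq, deriv_const]

theorem S1_gt {x : ℝ} (hx : 1 < x) : ∀ᶠ y in 𝓝 x, deriv smoothTransition y = 0 := by
  filter_upwards [Ioi_mem_nhds hx] with y hy
  have h : smoothTransition =ᶠ[𝓝 y] fun _ => 1 := by
    filter_upwards [Ioi_mem_nhds hy] with z hz
    exact Real.smoothTransition.one_of_one_le (le_of_lt hz)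
  rw [h.deriv_eq, deriv_const]

theorem bnd (f : ℝ → ℝ) (hf : Continuous f) (h : ∀ x, x < 0 ∨ 1 < x → f x = 0) :
    ∃ C : ℝ, 0 ≤ C ∧ ∀ x, |f x| ≤ C := by
  obtain ⟨C, hC⟩ := (isCompact_Icc (a := (0 : ℝ)) (b := 1)).exists_bound_of_continuousOn
    hf.continuousOn
  refine ⟨|C|, abs_nonneg _, fun x => ?_⟩
  by_cases hx : x < 0 ∨ 1 < x
  · rw [h x hx, abs_zero]
    exact abs_nonneg _
  · rw [not_or, not_lt, not_lt] at hx
    exact (hC x hx).trans (le_abs_self _)

theorem kth : KthStmt := by
  obtain ⟨C₁, hC₁0, hC₁⟩ := bnd (deriv smoothTransition) S1_contDiff.continuous (by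
    rintro x (hx | hx)
    · exact (S1_lt hx).self_of_nhds
    · exact (S1_gt hx).self_of_nhds)
  obtain ⟨C₂, hC₂0, hC₂⟩ := bnd (deriv (deriv smoothTransition)) S2_cont (by
    rintro x (hx | hx)
    · have h : deriv smoothTransition =ᶠ[𝓝 x] fun _ => 0 := S1_lt hx
      rw [h.deriv_eq, deriv_const]
    · have h : deriv smoothTransition =ᶠ[𝓝 x] fun _ => 0 := S1_gt hx
      rw [h.deriv_eq, deriv_const])
  refine ⟨C₁ + C₂ + 1, by linarith, fun t₀ t₁ h0 h1 => ?_⟩
  have ht1 : 0 < t₁ := lt_of_lt_of_le (by positivity) h1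
  have hLg : 1 ≤ Real.log (t₁ / t₀) := by
    rw [Real.le_log_iff_exp_le (by positivity), le_div_iff₀ h0]
    exact h1
  set Lg := Real.log (t₁ / t₀) with hLgd
  have hLp : 0 < Lg := by linarith
  have hLe : Lg = Real.log t₁ - Real.log t₀ := by
    rw [hLgd, Real.log_div ht1.ne' h0.ne']
  set L : ℝ → ℝ := fun a => (Real.log a - Real.log t₀) / Lg with hL
  set F : ℝ → ℝ := fun a => a * smoothTransition (L a) with hF
  set θ : ℝ → ℝ := fun a => if a ≤ 0 then 0 else F a with hθ
  set G : ℝ → ℝ := fun a => smoothTransition (L a) + deriv smoothTransition (L a) / Lg with hG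
  have hLd : ∀ a, 0 < a → HasDerivAt L (a⁻¹ / Lg) a := by
    intro a ha
    exact ((Real.hasDerivAt_log ha.ne').sub_const _).div_const _
  have hFd : ∀ a, 0 < a → HasDerivAt F (G a) a := by
    intro a ha
    have h := (hasDerivAt_id a).mul ((S_diff (L a)).comp a (hLd a ha))
    have e : 1 * (smoothTransition ∘ L) a + id a * (deriv smoothTransition (L a) * (a⁻¹ / Lg)) =
        G a := by
      simp only [hG, Function.comp, id]
      have := ha.ne'
      field_simp
    rw [← e]
    exact h
  have hGd : ∀ a, 0 < a → HasDerivAt G (deriv smoothTransition (L a) * (a⁻¹ / Lg) +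
      deriv (deriv smoothTransition) (L a) * (a⁻¹ / Lg) / Lg) a := by
    intro a ha
    exact ((S_diff (L a)).comp a (hLd a ha)).add
      (((S1_diff (L a)).comp a (hLd a ha)).div_const _)
  have hpos : ∀ a, 0 < a → θ =ᶠ[𝓝 a] F := by
    intro a ha
    filter_upwards [Ioi_mem_nhds ha] with b hb
    simp only [hθ]
    rw [if_neg (not_le.2 hb)]
  have hzero : ∀ a, a ≤ t₀ → θ a = 0 := by
    intro a ha
    simp only [hθ]
    split_ifs with h
    · rfl
    · simp only [hF]
      have : L a ≤ 0 := by
        simp only [hL]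
        apply div_nonpos_of_nonpos_of_nonneg _ hLp.le
        have := Real.log_le_log (not_le.1 h) ha
        linarith
      rw [Real.smoothTransition.zero_of_nonpos this, mul_zero]
  have hdF : ∀ a, 0 < a → deriv θ a = G a := by
    intro a ha
    rw [(hpos a ha).deriv_eq]
    exact (hFd a ha).deriv
  have hdG : ∀ a, 0 < a → deriv (deriv θ) a = deriv smoothTransition (L a) * (a⁻¹ / Lg) +
      deriv (deriv smoothTransition) (L a) * (a⁻¹ / Lg) / Lg := by
    intro a ha
    have h : deriv θ =ᶠ[𝓝 a] G := by
      filter_upwards [Ioi_mem_nhds ha] with b hb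
      exact hdF b hb
    rw [h.deriv_eq]
    exact (hGd a ha).deriv
  have hsm : ContDiff ℝ 2 θ := by
    rw [contDiff_iff_contDiffAt]
    intro a
    by_cases ha : a < t₀
    · apply (contDiffAt_const (c := (0 : ℝ))).congr_of_eventuallyEq
      filter_upwards [Iio_mem_nhds ha] with b hb
      exact hzero b (le_of_lt hb)
    · have ha' : 0 < a := lt_of_lt_of_le h0 (not_lt.1 ha)
      apply ContDiffAt.congr_of_eventuallyEq _ (hpos a ha')
      apply contDiffAt_id.mul
      apply (Real.smoothTransition.contDiff (n := 2)).contDiffAt.comp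
      exact ((Real.contDiffAt_log.2 ha'.ne').sub contDiffAt_const).div_const _
  refine ⟨θ, hsm, ?_, ?_, ?_, ?_, ?_⟩
  · intro a ha
    simp only [hθ]
    split_ifs with h
    · exact ⟨le_refl _, ha⟩
    · have h2 := Real.smoothTransition.nonneg (L a)
      have h3 := Real.smoothTransition.le_one (L a)
      exact ⟨mul_nonneg ha h2, by
        have := mul_le_mul_of_nonneg_left h3 ha
        simpa using this⟩
  · have hd0 : ∀ a, a < t₀ → deriv θ a = 0 := by
      intro a ha
      have h : θ =ᶠ[𝓝 a] fun _ => 0 := by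
        filter_upwards [Iio_mem_nhds ha] with b hb
        exact hzero b (le_of_lt hb)
      rw [h.deriv_eq, deriv_const]
    have hdd0 : ∀ a, a < t₀ → deriv (deriv θ) a = 0 := by
      intro a ha
      have h : deriv θ =ᶠ[𝓝 a] fun _ => 0 := by
        filter_upwards [Iio_mem_nhds ha] with b hb
        exact hd0 b hb
      rw [h.deriv_eq, deriv_const]
    have hc1 : ContDiff ℝ 1 (deriv θ) := by
      have h : ContDiff ℝ (1 + 1) θ := hsm
      exact (contDiff_succ_iff_deriv.1 h).2.2
    have hc2 : Continuous (deriv (deriv θ)) := by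
      have h : ContDiff ℝ (0 + 1) (deriv θ) := hc1
      exact (contDiff_succ_iff_deriv.1 h).2.2.continuous
    have hcl : ∀ f : ℝ → ℝ, Continuous f → (∀ a, a < t₀ → f a = 0) → ∀ a, a ≤ t₀ → f a = 0 := by
      intro f hf h a ha
      have hc : IsClosed {x : ℝ | f x = 0} := isClosed_eq hf continuous_const
      have hs : Set.Iio t₀ ⊆ {x : ℝ | f x = 0} := fun x hx => h x hx
      have := hc.closure_subset_iff.2 hs
      rw [closure_Iio] at this
      exact this ha
    intro a ha
    exact ⟨hzero a ha, hcl _ hc1.continuous hd0 a ha, hcl _ hc2 hdd0 a ha⟩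
  · intro a ha
    have hap : 0 < a := lt_of_lt_of_le ht1 ha
    simp only [hθ]
    rw [if_neg (not_le.2 hap)]
    simp only [hF]
    have : 1 ≤ L a := by
      simp only [hL]
      rw [le_div_iff₀ hLp, one_mul, hLe]
      have := Real.log_le_log ht1 ha
      linarith
    rw [Real.smoothTransition.one_of_one_le this, mul_one]
  · intro a ha
    rcases ha.eq_or_lt with rfl | hap
    · simp [hzero 0 h0.le]
    · rw [hdF a hap, (hpos a hap).self_of_nhds]
      have e : a * G a - F a = a * (deriv smoothTransition (L a) / Lg) := by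
        simp only [hG, hF]
        ring
      rw [e, abs_mul, abs_of_pos hap, mul_comm]
      apply mul_le_mul_of_nonneg_right _ hap.le
      rw [abs_div, abs_of_pos hLp]
      apply div_le_div_of_nonneg_right _ hLp.le
      linarith [hC₁ (L a)]
  · intro a ha
    rcases ha.eq_or_lt with rfl | hap
    · rw [zero_mul, abs_zero]
      positivity
    · rw [hdG a hap]
      have e : a * (deriv smoothTransition (L a) * (a⁻¹ / Lg) +
          deriv (deriv smoothTransition) (L a) * (a⁻¹ / Lg) / Lg) =
          (deriv smoothTransition (L a) + deriv (deriv smoothTransition) (L a) / Lg) / Lg := by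
        have := hap.ne'
        field_simp
      rw [e, abs_div, abs_of_pos hLp]
      apply div_le_div_of_nonneg_right _ hLp.le
      refine (abs_add_le _ _).trans ?_
      have h2 : |deriv (deriv smoothTransition) (L a) / Lg| ≤ C₂ := by
        rw [abs_div, abs_of_pos hLp]
        exact (div_le_self (abs_nonneg _) hLg).trans (hC₂ _)
      linarith [hC₁ (L a)]

end Pool.Agent.KIL.H13
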